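import Pool.Agent.H41.Ord.Final

/-!
# `N(F,ε)` is bounded by a tower of exponentials of height independent of `ε`

An ordered graph with `n` vertices is a simple graph on `Fin n` with the usual order. For an
ordered graph `F` the number `hostSize F ε` is `N(F,ε)`, the least number of vertices of an ordered
graph `G` with at least one edge such that `ρ_<(F,G) < ρ_<(F) + ε`.
-/

open Pool.Agent.H41.Ord

namespace Pool.Agent.Results.MP_0a0c1c_co.BoundedTower

/-- Sanity check: the maximum defining `ρ_<(F,G)` is attained. -/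
theorem relTuran_attained {r n : ℕ} (F : SimpleGraph (Fin r)) (hF : 1 ≤ F.edgeSet.ncard)
    (G : SimpleGraph (Fin n)) :
    IsGreatest {x : ℝ | ∃ G' : G.Subgraph, ¬ Contains F G' ∧
      x = (G'.edgeSet.ncard : ℝ) / (G.edgeSet.ncard : ℝ)} (relTuran F G) := by
  classical
  have hfin : {x : ℝ | ∃ G' : G.Subgraph, ¬ Contains F G' ∧
      x = (G'.edgeSet.ncard : ℝ) / (G.edgeSet.ncard : ℝ)}.Finite := by
    refine (Set.finite_range (fun G' : G.Subgraph =>
      (G'.edgeSet.ncard : ℝ) / (G.edgeSet.ncard : ℝ))).subset ?_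
    rintro x ⟨G', -, rfl⟩
    exact ⟨G', rfl⟩
  have hne : {x : ℝ | ∃ G' : G.Subgraph, ¬ Contains F G' ∧
      x = (G'.edgeSet.ncard : ℝ) / (G.edgeSet.ncard : ℝ)}.Nonempty := by
    refine ⟨_, ⊥, ?_, rfl⟩
    rintro ⟨f, -, hf, -⟩
    have h1 : F.edgeSet.Nonempty := Set.nonempty_of_ncard_ne_zero (by omega)
    obtain ⟨e, he⟩ := h1
    induction e using Sym2.ind with
    | _ x y => exact hf x
  exact ⟨hne.csSup_mem hfin, fun x hx => le_csSup hfin.bddAbove hx⟩

/-- Sanity check: the set defining `N(F,ε)` is not empty, so that the minimum is a genuine one. -/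
theorem hostSize_attained {r : ℕ} (F : SimpleGraph (Fin r)) {ε : ℝ} (hε : 0 < ε) :
    ∃ G : SimpleGraph (Fin (hostSize F ε)), 1 ≤ G.edgeSet.ncard ∧
      relTuran F G < turanDensity F + ε :=
  Nat.sInf_mem (hostSize_set_nonempty F hε)

/-- For every ordered graph `F` with at least one edge there is an integer `k ≥ 1` such that
`N(F,ε) ≤ exp^{∘k}(1/ε)` for all `0 < ε < 1`. -/
theorem result : ∀ (r : ℕ) (F : SimpleGraph (Fin r)), 1 ≤ F.edgeSet.ncard →
    ∃ k : ℕ, 1 ≤ k ∧ ∀ ε : ℝ, 0 < ε → ε < 1 →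
      (hostSize F ε : ℝ) ≤ Real.exp^[k] (1 / ε) :=
  fun _ F _ => exists_tower_bound F

end Pool.Agent.Results.MP_0a0c1c_co.BoundedTower
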